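import Pool.Agent.Helper56.Ulr.Final

/-!
For all `n ≥ 2` and `d ≥ 3` there is a homogeneous `SL_n`-invariant `J` on the space of forms of
degree `n (d - 2)` such that the set `U` of the associated forms of all `n`-tuples of forms of
degree `d - 1` with nonzero resultant is contained in `D(J)` and closed in `D(J)`.
-/

namespace Pool.Agent.Results.MP_23dcb4_ag.InvariantExists

open MvPolynomial Pool.Agent.Helper56.Disc Pool.Agent.Helper56.Ulr

/-- For all `n ≥ 2` and `d ≥ 3` there is an `SL_n`-invariant polynomial `J`, homogeneous of
positive degree, in the coefficients of the forms of degree `n (d - 2)` in `n` variables, such that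
the set `U` of (the coefficient vectors of) the associated forms is contained in the set `D(J)`
where `J` does not vanish, and `U` is a Zariski closed subset of `D(J)`: it is the intersection of
`D(J)` with the set of the common zeros of a set `S` of polynomials. -/
theorem result (n d : ℕ) (hn : 2 ≤ n) (hd : 3 ≤ d) :
    ∃ (k : ℕ) (J : MvPolynomial (Mon n (n * (d - 2))) ℂ),
      0 < k ∧ J.IsHomogeneous k ∧ IsSLInvariant J ∧
      assocImage n d ⊆ {c | eval c J ≠ 0} ∧
      ∃ S : Set (MvPolynomial (Mon n (n * (d - 2))) ℂ),
        assocImage n d = {c | eval c J ≠ 0} ∩ {c | ∀ s ∈ S, eval c s = 0} := by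
  obtain ⟨k, hk, J, S, h1, h2, h3⟩ := main n d hn hd
  refine ⟨k, J, hk, h1, h2, ?_, S, ?_⟩
  · rw [h3]
    exact fun c hc => hc.1
  · rw [h3]
    rfl

end Pool.Agent.Results.MP_23dcb4_ag.InvariantExists
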